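import Pool.Agent.H68.LP.Stm

set_option autoImplicit false

namespace Pool.Agent.H35.LP

open Quaternion Pool.Agent.H68.LP

attribute [local instance 100] LieRing.ofAssociativeRing

/-- Part ORB. -/
theorem t_ORB : S_ORB := by
  intro K _ _ u v hu hv hu0 hv0 hN
  by_contra hcon
  push Not at hcon
  -- the intertwiners
  have hcomm : ∀ w : ℍ[K], v * (v * w + w * u) = (v * w + w * u) * u := by
    intro w
    have h1 : ∀ q : ℍ[K], q.re = 0 → q * q = ((-normSq q : K) : ℍ[K]) := by
      intro q hq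
      apply Quaternion.ext <;>
        simp only [Quaternion.re_mul, Quaternion.imI_mul, Quaternion.imJ_mul, Quaternion.imK_mul,
          Quaternion.re_coe, Quaternion.imI_coe, Quaternion.imJ_coe, Quaternion.imK_coe,
          Quaternion.normSq_def', hq] <;> ring
    rw [mul_add, add_mul, ← mul_assoc v v w, h1 v hv, mul_assoc w u u, h1 u hu, hN,
      mul_assoc v w u, Quaternion.coe_commutes, add_comm]
  have H : ∀ w : ℍ[K], normSq (v * w + w * u) = 0 := by
    intro w
    by_contra h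
    exact hcon _ h (hcomm w)
  have F : ∀ w : ℍ[K], normSq (v * w + w * u) =
      (-(v.imI * w.imI + v.imJ * w.imJ + v.imK * w.imK) -
        (w.imI * u.imI + w.imJ * u.imJ + w.imK * u.imK)) ^ 2 +
      (v.imI * w.re + v.imJ * w.imK - v.imK * w.imJ +
        (w.re * u.imI + w.imJ * u.imK - w.imK * u.imJ)) ^ 2 +
      (-(v.imI * w.imK) + v.imJ * w.re + v.imK * w.imI +
        (w.re * u.imJ - w.imI * u.imK + w.imK * u.imI)) ^ 2 +
      (v.imI * w.imJ - v.imJ * w.imI + v.imK * w.re +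
        (w.re * u.imK + w.imI * u.imJ - w.imJ * u.imI)) ^ 2 := by
    intro w
    simp only [Quaternion.normSq_def', Quaternion.re_add, Quaternion.imI_add, Quaternion.imJ_add,
      Quaternion.imK_add, Quaternion.re_mul, Quaternion.imI_mul, Quaternion.imJ_mul,
      Quaternion.imK_mul, hu, hv]
    ring
  simp only [F] at H
  have e1 := H ⟨1, 0, 0, 0⟩
  have ei := H ⟨0, 1, 0, 0⟩
  have ej := H ⟨0, 0, 1, 0⟩
  have ek := H ⟨0, 0, 0, 1⟩
  have e1i := H ⟨1, 1, 0, 0⟩
  have e1j := H ⟨1, 0, 1, 0⟩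
  have e1k := H ⟨1, 0, 0, 1⟩
  have eij := H ⟨0, 1, 1, 0⟩
  have eik := H ⟨0, 1, 0, 1⟩
  have ejk := H ⟨0, 0, 1, 1⟩
  simp only at e1 ei ej ek e1i e1j e1k eij eik ejk
  have p11 : u.imI * v.imI = 0 := by linear_combination (e1 + ei - ej - ek) / 8
  have p22 : u.imJ * v.imJ = 0 := by linear_combination (e1 + ej - ei - ek) / 8
  have p33 : u.imK * v.imK = 0 := by linear_combination (e1 + ek - ei - ej) / 8
  have p23 : u.imJ * v.imK = 0 := by linear_combination ((e1i - e1 - ei) + (ejk - ej - ek)) / 8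
  have p32 : u.imK * v.imJ = 0 := by linear_combination (-(e1i - e1 - ei) + (ejk - ej - ek)) / 8
  have p31 : u.imK * v.imI = 0 := by linear_combination ((e1j - e1 - ej) + (eik - ei - ek)) / 8
  have p13 : u.imI * v.imK = 0 := by linear_combination (-(e1j - e1 - ej) + (eik - ei - ek)) / 8
  have p12 : u.imI * v.imJ = 0 := by linear_combination ((e1k - e1 - ek) + (eij - ei - ej)) / 8
  have p21 : u.imJ * v.imI = 0 := by linear_combination (-(e1k - e1 - ek) + (eij - ei - ej)) / 8
  have hv' : v.imI ≠ 0 ∨ v.imJ ≠ 0 ∨ v.imK ≠ 0 := by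
    by_contra h
    push Not at h
    obtain ⟨h1, h2, h3⟩ := h
    exact hv0 (Quaternion.ext _ _ hv h1 h2 h3)
  have hu1 : ∀ x : K, x * v.imI = 0 → x * v.imJ = 0 → x * v.imK = 0 → x = 0 := by
    intro x h1 h2 h3
    rcases hv' with h | h | h
    · exact (mul_eq_zero.1 h1).resolve_right h
    · exact (mul_eq_zero.1 h2).resolve_right h
    · exact (mul_eq_zero.1 h3).resolve_right h
  exact hu0 (Quaternion.ext _ _ hu (hu1 _ p11 p12 p13) (hu1 _ p21 p22 p23) (hu1 _ p31 p32 p33))

end Pool.Agent.H35.LP
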