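import Pool.Agent.H68.LP.Stm

set_option autoImplicit false

namespace Pool.Agent.H35.LP

open Quaternion Pool.Agent.H68.LP Polynomial

attribute [local instance 100] LieRing.ofAssociativeRing

/-- evaluation at a point, as a Lie homomorphism -/
noncomputable def evp (K : Type) [Field K] (t : K) : (K → ℍ[K]) →ₗ⁅K⁆ ℍ[K] where
  toFun x := x t
  map_add' _ _ := rfl
  map_smul' _ _ := rfl
  map_lie' := rfl

theorem brk {K : Type} [Field K] (q r : ℍ[K]) :
    q * r - r * q = ⟨0, 2 * (q.imJ * r.imK - q.imK * r.imJ), 2 * (q.imK * r.imI - q.imI * r.imK),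
      2 * (q.imI * r.imJ - q.imJ * r.imI)⟩ := by
  apply Quaternion.ext <;>
    simp only [Quaternion.re_sub, Quaternion.imI_sub, Quaternion.imJ_sub, Quaternion.imK_sub,
      Quaternion.re_mul, Quaternion.imI_mul, Quaternion.imJ_mul, Quaternion.imK_mul] <;> ring

/-- the coordinates are polynomial functions, and the value at `0` is `0` -/
def Pol (K : Type) [Field K] (x : K → ℍ[K]) : Prop :=
  ∃ A B C D : K[X], (∀ t : K, x t = ⟨A.eval t, B.eval t, C.eval t, D.eval t⟩) ∧ x 0 = 0

theorem ev_pol (K : Type) [Field K] (p : FreeLieAlgebra K ℕ) (a : ℕ → ℍ[K]) :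
    Pol K (ev (L := K → ℍ[K]) (fun i t => t • a i) p) := by
  refine ev_ind (Pol K) _ p ?_ ?_ ?_ ?_ ?_
  · refine ⟨0, 0, 0, 0, fun t => ?_, rfl⟩
    simp only [Polynomial.eval_zero]
    rfl
  · intro i
    refine ⟨X * Polynomial.C (a i).re, X * Polynomial.C (a i).imI, X * Polynomial.C (a i).imJ,
      X * Polynomial.C (a i).imK, fun t => ?_, ?_⟩
    · apply Quaternion.ext <;> simp <;> ring
    · simp
  · rintro x y ⟨A, B, C, D, h, h0⟩ ⟨A', B', C', D', h', h0'⟩
    refine ⟨A + A', B + B', C + C', D + D', fun t => ?_, ?_⟩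
    · rw [Pi.add_apply, h, h']
      simp only [Polynomial.eval_add]
      rfl
    · rw [Pi.add_apply, h0, h0', add_zero]
  · rintro c x ⟨A, B, C, D, h, h0⟩
    refine ⟨Polynomial.C c * A, Polynomial.C c * B, Polynomial.C c * C, Polynomial.C c * D,
      fun t => ?_, ?_⟩
    · rw [Pi.smul_apply, h]
      simp only [Polynomial.eval_mul, Polynomial.eval_C]
      rfl
    · rw [Pi.smul_apply, h0, smul_zero]
  · rintro x y ⟨A, B, C, D, h, h0⟩ ⟨A', B', C', D', h', h0'⟩
    have hb : ∀ t : K, ⁅x, y⁆ t = x t * y t - y t * x t := fun t => rfl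
    refine ⟨0, 2 * (C * D' - D * C'), 2 * (D * B' - B * D'), 2 * (B * C' - C * B'),
      fun t => ?_, ?_⟩
    · rw [hb, brk, h, h']
      simp only [Polynomial.eval_mul, Polynomial.eval_sub, Polynomial.eval_zero,
        Polynomial.eval_ofNat]
      all_goals rfl
    · rw [hb, h0, h0']
      simp

/-- Part SUR. -/
theorem t_SUR : S_SUR := by
  intro K _ _ _ p a ha hne c
  obtain ⟨A, B, C, D, h, h0⟩ := ev_pol K p a
  have hev : ∀ t : K, ev (fun i => t • a i) p = (⟨A.eval t, B.eval t, C.eval t, D.eval t⟩ : ℍ[K]) := by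
    intro t
    rw [← h t]
    exact (ev_map (evp K t) (fun i t => t • a i) p).symm
  set F : K[X] := A ^ 2 + B ^ 2 + C ^ 2 + D ^ 2 with hF
  have hn : ∀ t : K, normSq (ev (fun i => t • a i) p) = F.eval t := by
    intro t
    refine (Quaternion.normSq_def' _).trans ?_
    rw [hev]
    simp [hF]
  have hF0 : F.eval 0 = 0 := by
    rw [← hn 0]
    have h1 : ev (fun i => (0 : K) • a i) p = (0 : ℍ[K]) := by
      rw [hev 0, ← h 0, h0]
    rw [h1, map_zero]
  have hF1 : F.eval 1 ≠ 0 := by
    rw [← hn 1]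
    simpa using hne
  have hdeg : (F - Polynomial.C c).degree ≠ 0 := by
    intro hd
    have h1 := Polynomial.eq_C_of_degree_eq_zero hd
    have h2 : (F - Polynomial.C c).eval 0 = (F - Polynomial.C c).eval 1 := by
      rw [h1]
      simp
    simp only [Polynomial.eval_sub, Polynomial.eval_C] at h2
    rw [hF0] at h2
    exact hF1 (by linear_combination -h2)
  obtain ⟨t, ht⟩ := IsAlgClosed.exists_root (F - Polynomial.C c) hdeg
  refine ⟨fun i => t • a i, fun i => ?_, ?_⟩
  · rw [Quaternion.re_smul, ha i, smul_zero]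
  · rw [hn t]
    rw [Polynomial.IsRoot.def, Polynomial.eval_sub, Polynomial.eval_C] at ht
    linear_combination ht

end Pool.Agent.H35.LP
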